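import Pool.Agent.Q173.KS.Stm

/-!
# Project KS: job INIT
-/

set_option autoImplicit false

namespace Pool.Agent.Q44.KS

open Finset Pool.Agent.Q173.KS

section
variable {I : Type} [Fintype I] [DecidableEq I]

theorem phi0_split (X : Finset (Bool × I)) (c : ℝ) (hX : ∀ x ∈ X, sg x = c)
    (S : Finset (Bool × I)) : Phi0 S = (∏ x ∈ S \ X, sg x) * c ^ (S ∩ X).card := by
  unfold Phi0
  rw [← Finset.prod_sdiff (Finset.inter_subset_left : S ∩ X ⊆ S), Finset.sdiff_inter_self_left]
  congr 1
  rw [Finset.prod_congr rfl (fun x hx => hX x (Finset.mem_inter.1 hx).2), Finset.prod_const]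

theorem inv_of (k : ℕ) (X : Finset (Bool × I)) (c : ℝ) (hX : ∀ x ∈ X, sg x = c) :
    InvOn k X Phi0 := by
  intro S S' _ h1 h2
  rw [phi0_split X c hX S, phi0_split X c hX S', h1, h2]

theorem abs_sg (x : Bool × I) : |sg x| = 1 := by
  unfold sg
  split_ifs <;> simp

theorem sg_sq (x : Bool × I) : sg x * sg x = 1 := by
  unfold sg
  split_ifs <;> norm_num

theorem sum_sg : ∑ x : Bool × I, sg x = 0 := by
  rw [Fintype.sum_prod_type, Fintype.sum_bool, ← Finset.sum_add_distrib]
  apply Finset.sum_eq_zero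
  intro i _
  simp [sg]

theorem rel_phi0 (k : ℕ) : Rel k (Phi0 (I := I)) := by
  intro S _
  have h1 : ∑ x ∈ Sᶜ, Phi0 (insert x S) = ∑ x ∈ Sᶜ, sg x * Phi0 S := by
    refine Finset.sum_congr rfl fun x hx => ?_
    unfold Phi0
    rw [Finset.prod_insert (Finset.mem_compl.1 hx)]
  have h2 : ∑ x ∈ S, Phi0 (S.erase x) = ∑ x ∈ S, sg x * Phi0 S := by
    refine Finset.sum_congr rfl fun x hx => ?_
    unfold Phi0
    rw [← Finset.mul_prod_erase S sg hx, ← mul_assoc, sg_sq, one_mul]
  rw [h1, h2, ← Finset.sum_mul, ← Finset.sum_mul, ← add_mul, add_comm,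
    Finset.sum_add_sum_compl, sum_sg, zero_mul]

theorem rel_uu (k : ℕ) (hk : k ≤ Fintype.card I) :
    Rel k (fun S : Finset (Bool × I) => uu (Fintype.card I) S.card) := by
  intro S hS
  have h1 : ∑ x ∈ Sᶜ, uu (Fintype.card I) (insert x S).card =
      ((2 * Fintype.card I : ℝ) - S.card) * uu (Fintype.card I) (S.card + 1) := by
    rw [Finset.sum_congr rfl (fun x hx => by
      rw [Finset.card_insert_of_notMem (Finset.mem_compl.1 hx)]), Finset.sum_const,
      nsmul_eq_mul, Finset.card_compl, Nat.cast_sub (Finset.card_le_univ S)]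
    simp [Fintype.card_prod, Fintype.card_bool]
  have h2 : ∑ x ∈ S, uu (Fintype.card I) (S.erase x).card =
      (S.card : ℝ) * uu (Fintype.card I) (S.card - 1) := by
    rw [Finset.sum_congr rfl (fun x hx => by
      rw [Finset.card_erase_of_mem hx]), Finset.sum_const, nsmul_eq_mul]
  show ∑ x ∈ Sᶜ, uu (Fintype.card I) (insert x S).card +
    ∑ x ∈ S, uu (Fintype.card I) (S.erase x).card = 0
  rw [h1, h2]
  rcases hj : S.card with _ | i
  · simp [uu]
  · have hi : ((i : ℝ) + 1) < Fintype.card I := by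
      have : i + 1 < Fintype.card I := by omega
      exact_mod_cast this
    have hi0 : (0 : ℝ) ≤ i := Nat.cast_nonneg i
    have hne : (2 * (Fintype.card I : ℝ) - i - 1) ≠ 0 := by
      have : 0 < 2 * (Fintype.card I : ℝ) - i - 1 := by linarith
      exact this.ne'
    have h3 : uu (Fintype.card I) (i + 1 + 1) =
        -(((i : ℝ) + 1) / (2 * Fintype.card I - i - 1)) * uu (Fintype.card I) i := by
      rw [uu]
    rw [h3]
    simp only [Nat.add_sub_cancel]
    push_cast
    field_simp
    ring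

end

theorem uu_le (N : ℕ) : ∀ j : ℕ, j ≤ N → |uu N j| ≤ 1
  | 0, _ => by simp [uu]
  | 1, _ => by simp [uu]
  | (j + 2), h => by
    have ih := uu_le N j (by omega)
    rw [uu, abs_mul, abs_neg]
    have hN : ((j : ℝ) + 2) ≤ N := by exact_mod_cast h
    have hj0 : (0 : ℝ) ≤ j := Nat.cast_nonneg j
    have hp : 0 < 2 * (N : ℝ) - j - 1 := by linarith
    rw [abs_of_nonneg (by positivity)]
    have h1 : ((j : ℝ) + 1) / (2 * N - j - 1) ≤ 1 := by
      rw [div_le_one hp]
      linarith
    exact mul_le_one₀ h1 (abs_nonneg _) ih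

theorem init : S_INIT := by
  refine ⟨fun I _ _ k => ⟨inv_of k _ 1 ?_, inv_of k _ (-1) ?_, rel_phi0 k, fun S => ?_⟩,
    fun I _ _ k hk => rel_uu k hk, fun N j hj => uu_le N j hj⟩
  · intro x hx
    have : x.1 = false := (Finset.mem_filter.1 hx).2
    simp [sg, this]
  · intro x hx
    have : x.1 = true := (Finset.mem_filter.1 hx).2
    simp [sg, this]
  · unfold Phi0
    rw [Finset.abs_prod]
    exact Finset.prod_eq_one fun x _ => abs_sg x

end Pool.Agent.Q44.KS
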